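import Pool.Agent.Helper81.MH.QM

/-!
Part M of MP_f028d2_al: `PartM1 → PartM`.
-/

set_option autoImplicit false

namespace Pool.Agent.Helper81.MH

open Pool.Agent.Helper74.MH Relation

variable {n k : ℕ}

theorem not_QS_final {hk : 0 < k} {op : Fin n → TOp (Fin n) k}
    (y : Mode n k × List (Sym n k)) : ¬ QS hk op (.XB, [.F1, .F2]) y := by
  rintro ⟨s, z, m', out, h1, h2, -⟩
  obtain ⟨rfl, rfl⟩ := List.cons.inj h1
  simp [dl] at h2

theorem acc_of_reach {α : Type} {r : α → α → Prop} (hdet : ∀ x y z, r x y → r x z → y = z)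
    {x f : α} (hf : ∀ y, ¬ r f y) (h : ReflTransGen r x f) : Acc (fun a b => r b a) x := by
  induction h using ReflTransGen.head_induction_on with
  | refl => exact ⟨_, fun y hy => (hf y hy).elim⟩
  | head h1 _ ih => exact ⟨_, fun y hy => by rw [hdet _ _ _ hy h1]; exact ih⟩

theorem halts_step {hk : 0 < k} {op : Fin n → TOp (Fin n) k} {c c' : Fin n × ℕ × ℕ}
    (h : TOp.step op hk c = some c') (h' : TOp.Halts op hk c') : TOp.Halts op hk c := by
  obtain ⟨d, h1, h2⟩ := h'
  exact ⟨d, ReflTransGen.head h h1, h2⟩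

theorem halts_of_acc {hk : 0 < k} {op : Fin n → TOp (Fin n) k} (x : Mode n k × List (Sym n k))
    (hx : Acc (TransGen (fun a b => QS hk op b a)) x) :
    ∀ p L R q r, x = conf p L R q r → TOp.Halts op hk (p, L, R) := by
  induction hx with
  | intro x _ ih =>
    rintro p L R q r rfl
    rcases hop : op p with ⟨d, f⟩ | ⟨d, f⟩ | p' | _
    · have h1 := macro_right (hk := hk) hop L R q r
      exact halts_step (by simp [TOp.step, hop]) (ih _ (transGen_swap.2 h1) _ _ _ _ _ rfl)
    · have h1 := macro_left (hk := hk) hop L R q r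
      exact halts_step (by simp [TOp.step, hop]) (ih _ (transGen_swap.2 h1) _ _ _ _ _ rfl)
    · have h1 := macro_jump (hk := hk) hop L R q r
      exact halts_step (by simp [TOp.step, hop]) (ih _ (transGen_swap.2 h1) _ _ _ _ _ rfl)
    · exact ⟨_, ReflTransGen.refl, by simp [TOp.step, hop]⟩

theorem reach_of_halts {hk : 0 < k} {op : Fin n → TOp (Fin n) k} {c : Fin n × ℕ × ℕ}
    (h : TOp.Halts op hk c) (q : Fin n) (r : Fin k) :
    ReflTransGen (QS hk op) (conf c.1 c.2.1 c.2.2 q r) (.XB, [.F1, .F2]) := by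
  obtain ⟨c', h, h2⟩ := h
  induction h using ReflTransGen.head_induction_on generalizing q r with
  | refl =>
    obtain ⟨p, L, R⟩ := c'
    rcases hop : op p with ⟨d, f⟩ | ⟨d, f⟩ | p' | _
    · simp [TOp.step, hop] at h2
    · simp [TOp.step, hop] at h2
    · simp [TOp.step, hop] at h2
    · exact macro_halt hop L R q r
  | @head c c'' h1 _ ih =>
    obtain ⟨p, L, R⟩ := c
    rcases hop : op p with ⟨d, f⟩ | ⟨d, f⟩ | p' | _
    · simp only [TOp.step, hop, Option.some.injEq] at h1
      subst h1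
      exact (macro_right (hk := hk) hop L R q r).to_reflTransGen.trans (ih _ _)
    · simp only [TOp.step, hop, Option.some.injEq] at h1
      subst h1
      exact (macro_left (hk := hk) hop L R q r).to_reflTransGen.trans (ih _ _)
    · simp only [TOp.step, hop, Option.some.injEq] at h1
      subst h1
      exact (macro_jump (hk := hk) hop L R q r).to_reflTransGen.trans (ih _ _)
    · simp [TOp.step, hop] at h1

theorem qreach_iff {hk : 0 < k} {op : Fin n → TOp (Fin n) k} (p : Fin n) (L R : ℕ) (q : Fin n)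
    (r : Fin k) :
    ReflTransGen (QS hk op) (conf p L R q r) (.XB, [.F1, .F2]) ↔ TOp.Halts op hk (p, L, R) := by
  refine ⟨fun h => ?_, fun h => reach_of_halts h q r⟩
  have h1 : Acc (fun a b => QS hk op b a) (conf p L R q r) :=
    acc_of_reach (r := QS hk op) (fun _ _ _ => QS.det) not_QS_final h
  exact halts_of_acc _ h1.transGen _ _ _ _ _ rfl

/-! ### the machine -/

/-- instructions -/
abbrev T0 (hk : 0 < k) (op : Fin n → TOp (Fin n) k) : Type :=
  {t : Mode n k × Sym n k // (dl hk op t.1 t.2).isSome}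

/-- the machine -/
def M0 (hk : 0 < k) (op : Fin n → TOp (Fin n) k) : Mach (Sym n k × Mode n k) (T0 hk op) where
  a t := (t.1.2, t.1.1)
  sg t := Equiv.prodCongr (Equiv.refl _) (Equiv.swap t.1.1 ((dl hk op t.1.1 t.1.2).get t.2).1)
  g t := ((dl hk op t.1.1 t.1.2).get t.2).2.map
    (fun s => (s, ((dl hk op t.1.1 t.1.2).get t.2).1))
  chi x := chr x.1
  r1 := (.F1, .XB)
  r2 := (.F2, .XB)

theorem get_eq {hk : 0 < k} {op : Fin n → TOp (Fin n) k} (t : T0 hk op) :
    dl hk op t.1.1 t.1.2 = some (((dl hk op t.1.1 t.1.2).get t.2).1,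
      ((dl hk op t.1.1 t.1.2).get t.2).2) := by
  simp

theorem M0_good (hk : 0 < k) (op : Fin n → TOp (Fin n) k) : (M0 hk op).Good where
  inj_a := by
    intro t t' h
    have h1 := (Prod.mk.inj h).1
    have h2 := (Prod.mk.inj h).2
    exact Subtype.ext (Prod.ext h2 h1)
  inj_a' := by
    intro t t' h
    have h' : (t.1.2, ((dl hk op t.1.1 t.1.2).get t.2).1)
        = (t'.1.2, ((dl hk op t'.1.1 t'.1.2).get t'.2).1) := by
      simpa [M0] using h
    have h1 := (Prod.mk.inj h').1
    have h2 := (Prod.mk.inj h').2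
    have e1 := get_eq t
    have e2 := get_eq t'
    rw [← h2] at e2
    have e3 : t'.1.2 = t.1.2 := h1.symm
    have e4 : dl hk op t'.1.1 t.1.2 = some (((dl hk op t.1.1 t.1.2).get t.2).1,
      ((dl hk op t'.1.1 t'.1.2).get t'.2).2) := by rw [← e2, e3]
    exact Subtype.ext (Prod.ext (codet hk op _ _ _ _ _ _ e1 e4) h1)
  chi_sg := by
    intro t y
    rfl
  chi_g := by
    intro t
    have := chr_cons hk op t.1.1 t.1.2 _ _ (get_eq t)
    simp only [M0, List.map_map]
    exact this
  chi_le := fun y => chr_le y.1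
  r1_not := by
    rintro ⟨⟨m, s⟩, ht⟩ h
    obtain ⟨h1, h2⟩ := Prod.mk.inj h
    simp only at h1 h2
    subst h1 h2
    simp [dl] at ht
  r12 := by
    intro h
    exact absurd (Prod.mk.inj h).1 (by simp)
  chi_r1 := rfl
  chi_r2 := rfl

/-- tagged words -/
def tag (x : Mode n k × List (Sym n k)) : List (Sym n k × Mode n k) := x.2.map (fun s => (s, x.1))

theorem step_tag {hk : 0 < k} {op : Fin n → TOp (Fin n) k} {x y : Mode n k × List (Sym n k)}
    (h : QS hk op x y) : (M0 hk op).Step (tag x) (tag y) := by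
  obtain ⟨s, z, m', out, h1, h2, rfl⟩ := h
  refine ⟨⟨(x.1, s), by simp [h2]⟩, tag (x.1, z), ?_, ?_⟩
  · simp [tag, h1, M0]
  · simp [tag, M0, h2, Function.comp_def]

theorem tag_step {hk : 0 < k} {op : Fin n → TOp (Fin n) k} {x : Mode n k × List (Sym n k)}
    {y : List (Sym n k × Mode n k)} (h : (M0 hk op).Step (tag x) y) :
    ∃ x', y = tag x' ∧ QS hk op x x' := by
  obtain ⟨⟨⟨m, s⟩, ht⟩, z, h1, h2⟩ := h
  obtain ⟨m₀, w⟩ := x
  rcases w with _ | ⟨s', w⟩
  · simp [tag] at h1
  simp only [tag, List.map_cons, M0] at h1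
  obtain ⟨h3, h4⟩ := List.cons.inj h1
  obtain ⟨rfl, rfl⟩ := Prod.mk.inj h3
  obtain ⟨⟨m', out⟩, h5⟩ := Option.isSome_iff_exists.1 ht
  refine ⟨(m', w ++ out), ?_, s', w, m', out, rfl, h5, rfl⟩
  rw [h2, ← h4]
  simp only at h5
  simp [tag, M0, h5, Function.comp_def]

theorem reach_tag {hk : 0 < k} {op : Fin n → TOp (Fin n) k} {x y : Mode n k × List (Sym n k)}
    (h : ReflTransGen (QS hk op) x y) : (M0 hk op).Reach (tag x) (tag y) :=
  h.lift tag (fun _ _ h => step_tag h)

theorem tag_reach {hk : 0 < k} {op : Fin n → TOp (Fin n) k} {x : Mode n k × List (Sym n k)}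
    {y : List (Sym n k × Mode n k)} (h : (M0 hk op).Reach (tag x) y) :
    ∃ x', y = tag x' ∧ ReflTransGen (QS hk op) x x' := by
  induction h with
  | refl => exact ⟨x, rfl, ReflTransGen.refl⟩
  | tail _ h ih =>
    obtain ⟨x', rfl, h1⟩ := ih
    obtain ⟨x'', rfl, h2⟩ := tag_step h
    exact ⟨x'', rfl, h1.tail h2⟩

theorem tag_final {x : Mode n k × List (Sym n k)}
    (h : [((.F1, .XB) : Sym n k × Mode n k), (.F2, .XB)] = tag x) : x = (.XB, [.F1, .F2]) := by
  obtain ⟨m, w⟩ := x
  rcases w with _ | ⟨s₁, _ | ⟨s₂, _ | ⟨s₃, w⟩⟩⟩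
  · simp [tag] at h
  · simp [tag] at h
  · simp only [tag, List.map_cons, List.map_nil, List.cons.injEq, Prod.mk.injEq, and_true] at h
    obtain ⟨⟨rfl, rfl⟩, rfl, -⟩ := h
    rfl
  · simp [tag] at h

theorem M0_reach_iff {hk : 0 < k} {op : Fin n → TOp (Fin n) k} (p : Fin n) (L R : ℕ) (q : Fin n)
    (r : Fin k) :
    (M0 hk op).Reach (tag (conf p L R q r)) [(M0 hk op).r1, (M0 hk op).r2] ↔
      TOp.Halts op hk (p, L, R) := by
  rw [← qreach_iff p L R q r]
  constructor
  · intro h
    obtain ⟨x', h1, h2⟩ := tag_reach h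
    rw [tag_final h1] at h2
    exact h2
  · intro h
    exact reach_tag h

/-! ### transport to `Fin` -/

/-- transport of a machine -/
def mp {A A' T T' : Type} (M : Mach A T) (eA : A ≃ A') (eT : T ≃ T') : Mach A' T' where
  a t := eA (M.a (eT.symm t))
  sg t := (eA.symm.trans (M.sg (eT.symm t))).trans eA
  g t := (M.g (eT.symm t)).map eA
  chi y := M.chi (eA.symm y)
  r1 := eA M.r1
  r2 := eA M.r2

theorem mp_good {A A' T T' : Type} {M : Mach A T} (h : M.Good) (eA : A ≃ A') (eT : T ≃ T') :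
    (mp M eA eT).Good where
  inj_a := by
    intro t t' e
    exact eT.symm.injective (h.inj_a (eA.injective e))
  inj_a' := by
    intro t t' e
    have e' : eA (M.sg (eT.symm t) (M.a (eT.symm t)))
        = eA (M.sg (eT.symm t') (M.a (eT.symm t'))) := by simpa [mp] using e
    exact eT.symm.injective (h.inj_a' (eA.injective e'))
  chi_sg := by
    intro t y
    simpa [mp] using h.chi_sg (eT.symm t) (eA.symm y)
  chi_g := by
    intro t
    simpa [mp, Function.comp_def] using h.chi_g (eT.symm t)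
  chi_le := fun y => h.chi_le _
  r1_not := by
    intro t e
    exact h.r1_not _ (eA.injective e)
  r12 := fun e => h.r12 (eA.injective e)
  chi_r1 := by simpa [mp] using h.chi_r1
  chi_r2 := by simpa [mp] using h.chi_r2

theorem mp_step {A A' T T' : Type} {M : Mach A T} (eA : A ≃ A') (eT : T ≃ T') {x y : List A}
    (h : M.Step x y) : (mp M eA eT).Step (x.map eA) (y.map eA) := by
  obtain ⟨t, z, rfl, rfl⟩ := h
  exact ⟨eT t, z.map eA, by simp [mp], by simp [mp, Function.comp_def]⟩

theorem mp_reach {A A' T T' : Type} {M : Mach A T} (eA : A ≃ A') (eT : T ≃ T') {x y : List A}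
    (h : M.Reach x y) : (mp M eA eT).Reach (x.map eA) (y.map eA) :=
  h.lift _ (fun _ _ h => mp_step eA eT h)

theorem step_mp {A A' T T' : Type} {M : Mach A T} (eA : A ≃ A') (eT : T ≃ T') {x' y' : List A'}
    (h : (mp M eA eT).Step x' y') : M.Step (x'.map eA.symm) (y'.map eA.symm) := by
  obtain ⟨t, z, rfl, rfl⟩ := h
  exact ⟨eT.symm t, z.map eA.symm, by simp [mp], by simp [mp, Function.comp_def]⟩

theorem reach_mp {A A' T T' : Type} {M : Mach A T} (eA : A ≃ A') (eT : T ≃ T') {x y : List A}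
    (h : (mp M eA eT).Reach (x.map eA) (y.map eA)) : M.Reach x y := by
  have h0 : ReflTransGen (mp M eA eT).Step (x.map eA) (y.map eA) := h
  have h1 : ReflTransGen M.Step ((x.map eA).map eA.symm) ((y.map eA).map eA.symm) :=
    h0.lift (List.map eA.symm) (fun _ _ h => step_mp eA eT h)
  change ReflTransGen M.Step x y
  simpa [Function.comp_def] using h1

theorem partM_of_partM1 : PartM1 → PartM := by
  rintro ⟨nP, k, hk, op, p0, R, hR, hund⟩
  classical
  let eA := Fintype.equivFin (Sym nP k × Mode nP k)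
  let eT := Fintype.equivFin (T0 hk op)
  let c1 := eA (.s p0 p0 ⟨0, hk⟩, .CB p0 ⟨0, hk⟩)
  let c2 := eA (.rho, .CB p0 ⟨0, hk⟩)
  let c3 := eA (.b, .CB p0 ⟨0, hk⟩)
  let en : ℕ → List (Fin (Fintype.card (Sym nP k × Mode nP k))) :=
    fun m => c1 :: c2 :: (List.range m).map (fun _ => c3)
  have hen : Primrec en :=
    Primrec.list_cons.comp (Primrec.const c1) (Primrec.list_cons.comp (Primrec.const c2)
      (Primrec.list_map Primrec.list_range (Primrec.const c3).to₂))
  have htag : ∀ m, en m = (tag (conf p0 0 m p0 ⟨0, hk⟩)).map eA := by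
    intro m
    simp [en, tag, conf, c1, c2, c3, List.map_const']
  refine ⟨_, _, mp (M0 hk op) eA eT, mp_good (M0_good hk op) eA eT, fun m => en (R m),
    hen.to_comp.comp hR, ?_, ?_⟩
  · intro m
    simp only [htag, List.map_map]
    simp [mp, tag, conf, M0, Function.comp_def, chr]
  · intro h
    apply hund
    have e : (fun m => TOp.Halts op hk (p0, 0, R m)) = fun m =>
        (mp (M0 hk op) eA eT).Reach (en (R m)) [(mp (M0 hk op) eA eT).r1,
          (mp (M0 hk op) eA eT).r2] := by
      funext m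
      apply propext
      rw [htag, ← M0_reach_iff p0 0 (R m) p0 ⟨0, hk⟩]
      constructor
      · intro h
        exact mp_reach eA eT h
      · intro h
        exact reach_mp eA eT h
    rw [e]
    exact h

end Pool.Agent.Helper81.MH
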