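import Pool.Agent.Helper74.MH.Mach

/-!
Part M of MP_f028d2_al: a two-register machine is simulated by a queue machine `Mach`.
-/

set_option autoImplicit false

namespace Pool.Agent.Helper81.MH

open Pool.Agent.Helper74.MH Relation

/-- letters of the queue machine -/
inductive Sym (n k : ℕ) : Type
  | a
  | b
  | rho
  | s (p : Fin n) (q : Fin n) (r : Fin k)
  | c (p : Fin n)
  | F1
  | F2
  deriving DecidableEq, Fintype

/-- modes of the queue machine -/
inductive Mode (n k : ℕ) : Type
  | Am (p : Fin n) (i : Fin k)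
  | Bm (p : Fin n) (i : Fin k)
  | CA (p : Fin n) (r : Fin k)
  | CB (p : Fin n) (r : Fin k)
  | XA
  | XB
  deriving DecidableEq, Fintype

variable {n k : ℕ}

/-- cyclic successor -/
def inc (hk : 0 < k) (i : Fin k) : Fin k :=
  if h : (i : ℕ) + 1 < k then ⟨i + 1, h⟩ else ⟨0, hk⟩

theorem inc_inj (hk : 0 < k) {i j : Fin k} (h : inc hk i = inc hk j) : i = j := by
  unfold inc at h
  have hi := i.2
  have hj := j.2
  split_ifs at h with h1 h2 h2
  · have := congrArg Fin.val h
    simp only at this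
    exact Fin.ext (by omega)
  · have := congrArg Fin.val h
    simp only at this
    omega
  · have := congrArg Fin.val h
    simp only at this
    omega
  · exact Fin.ext (by omega)

/-- output of a counting step -/
def cout {X : Type} (k : ℕ) (x : X) (i : Fin k) : List X :=
  if (i : ℕ) + 1 < k then [] else [x]

/-- the transition function -/
def dl (hk : 0 < k) (op : Fin n → TOp (Fin n) k) :
    Mode n k → Sym n k → Option (Mode n k × List (Sym n k))
  | .CB q r, .s p q' r' =>
    if q = q' ∧ r = r' then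
      match op p with
      | .right _ _ => some (.Am p ⟨0, hk⟩, [.c p])
      | .left _ _ => some (.Am p ⟨0, hk⟩, [.c p])
      | .jump p' => some (.CA p ⟨0, hk⟩, [.s p' p ⟨0, hk⟩])
      | .halt => some (.XA, [.F1])
    else none
  | .Am p i, .a =>
    match op p with
    | .right _ _ => if i = ⟨0, hk⟩ then some (.Am p ⟨0, hk⟩, List.replicate k .a) else none
    | .left _ _ => some (.Am p (inc hk i), cout k .a i)
    | .jump _ => none
    | .halt => none
  | .Am p i, .rho =>
    match op p with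
    | .right d _ =>
      if i = ⟨0, hk⟩ then some (.Bm p ⟨0, hk⟩, List.replicate d .a ++ [.rho]) else none
    | .left d _ => some (.Bm p i, .rho :: List.replicate d .b)
    | .jump _ => none
    | .halt => none
  | .Bm p i, .b =>
    match op p with
    | .right _ _ => some (.Bm p (inc hk i), cout k .b i)
    | .left _ _ => some (.Bm p i, List.replicate k .b)
    | .jump _ => none
    | .halt => none
  | .Bm p i, .c p' =>
    if p = p' then
      match op p with
      | .right _ f => some (.CA p i, [.s (f i) p i])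
      | .left _ f => some (.CA p i, [.s (f i) p i])
      | .jump _ => none
      | .halt => none
    else none
  | .CA p r, .a => some (.CA p r, [.a])
  | .CA p r, .rho => some (.CB p r, [.rho])
  | .CB p r, .b => some (.CB p r, [.b])
  | .XA, .a => some (.XA, [])
  | .XA, .rho => some (.XB, [.F2])
  | .XB, .b => some (.XB, [])
  | _, _ => none

/-- charge of a letter -/
def chr : Sym n k → ℕ
  | .a => 0
  | .b => 0
  | _ => 1

theorem chr_le (x : Sym n k) : chr x ≤ 1 := by
  cases x <;> simp [chr]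

theorem chr_cons (hk : 0 < k) (op : Fin n → TOp (Fin n) k) (m : Mode n k) (x : Sym n k)
    (m' : Mode n k) (o : List (Sym n k)) (h : dl hk op m x = some (m', o)) :
    (o.map chr).sum = chr x := by
  rcases m with ⟨p, i⟩ | ⟨p, i⟩ | ⟨p, i⟩ | ⟨p, i⟩ | _ | _
  · rcases hop : op p with ⟨d, f⟩ | ⟨d, f⟩ | p' | _ <;>
    rcases x with _ | _ | _ | ⟨p₁, q₁, r₁⟩ | p₁ | _ | _ <;>
    simp only [dl, hop, reduceCtorEq] at h <;>
    (try split_ifs at h) <;>
    (try simp only [Option.some.injEq, Prod.mk.injEq, reduceCtorEq] at h) <;>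
    obtain ⟨-, rfl⟩ := h <;> (try simp only [cout]) <;> (try split_ifs) <;> simp [chr]
  · rcases hop : op p with ⟨d, f⟩ | ⟨d, f⟩ | p' | _ <;>
    rcases x with _ | _ | _ | ⟨p₁, q₁, r₁⟩ | p₁ | _ | _ <;>
    simp only [dl, hop, reduceCtorEq] at h <;>
    (try split_ifs at h) <;>
    (try simp only [Option.some.injEq, Prod.mk.injEq, reduceCtorEq] at h) <;>
    obtain ⟨-, rfl⟩ := h <;> (try simp only [cout]) <;> (try split_ifs) <;> simp [chr]
  · rcases x with _ | _ | _ | ⟨p₁, q₁, r₁⟩ | p₁ | _ | _ <;>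
    simp only [dl, Option.some.injEq, Prod.mk.injEq, reduceCtorEq] at h <;>
    obtain ⟨-, rfl⟩ := h <;> simp [chr]
  · rcases x with _ | _ | _ | ⟨p₁, q₁, r₁⟩ | p₁ | _ | _
    case s =>
      rcases hop : op p₁ with ⟨d, f⟩ | ⟨d, f⟩ | p' | _ <;>
      simp only [dl, hop] at h <;>
      split_ifs at h <;>
      simp only [Option.some.injEq, Prod.mk.injEq] at h <;>
      obtain ⟨-, rfl⟩ := h <;> simp [chr]
    all_goals
      simp only [dl, Option.some.injEq, Prod.mk.injEq, reduceCtorEq] at h <;>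
      obtain ⟨-, rfl⟩ := h <;> simp [chr]
  · rcases x with _ | _ | _ | ⟨p₁, q₁, r₁⟩ | p₁ | _ | _ <;>
    simp only [dl, Option.some.injEq, Prod.mk.injEq, reduceCtorEq] at h <;>
    obtain ⟨-, rfl⟩ := h <;> simp [chr]
  · rcases x with _ | _ | _ | ⟨p₁, q₁, r₁⟩ | p₁ | _ | _ <;>
    simp only [dl, Option.some.injEq, Prod.mk.injEq, reduceCtorEq] at h <;>
    obtain ⟨-, rfl⟩ := h <;> simp [chr]

/-- cyclic predecessor -/
def dec (hk : 0 < k) (i : Fin k) : Fin k :=
  if (i : ℕ) = 0 then ⟨k - 1, by omega⟩ else ⟨i - 1, by have := i.2; omega⟩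

theorem dec_inc (hk : 0 < k) (i : Fin k) : dec hk (inc hk i) = i := by
  have hi := i.2
  unfold dec inc
  by_cases h : (i : ℕ) + 1 < k
  · simp [h]
  · simp only [h, dite_false, if_true]
    exact Fin.ext (by simp only; omega)

/-- inverse of the transition function: the old mode from the letter and the new mode -/
def back (hk : 0 < k) (op : Fin n → TOp (Fin n) k) : Sym n k → Mode n k → Mode n k
  | .a, .Am p i => match op p with
    | .right _ _ => .Am p ⟨0, hk⟩
    | _ => .Am p (dec hk i)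
  | .b, .Bm p i => match op p with
    | .left _ _ => .Bm p i
    | _ => .Bm p (dec hk i)
  | .rho, .Bm p i => .Am p i
  | .rho, .CB p i => .CA p i
  | .rho, .XB => .XA
  | .c p, .CA _ i => .Bm p i
  | .s _ q r, _ => .CB q r
  | _, m => m

theorem back_dl (hk : 0 < k) (op : Fin n → TOp (Fin n) k) (m : Mode n k) (x : Sym n k)
    (m' : Mode n k) (o : List (Sym n k)) (h : dl hk op m x = some (m', o)) :
    m = back hk op x m' := by
  rcases m with ⟨p, i⟩ | ⟨p, i⟩ | ⟨p, i⟩ | ⟨p, i⟩ | _ | _
  · rcases hop : op p with ⟨d, f⟩ | ⟨d, f⟩ | p' | _ <;>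
    rcases x with _ | _ | _ | ⟨p₁, q₁, r₁⟩ | p₁ | _ | _ <;>
    simp only [dl, hop, reduceCtorEq] at h <;>
    (try split_ifs at h with h1) <;>
    (try simp only [Option.some.injEq, Prod.mk.injEq, reduceCtorEq] at h) <;>
    obtain ⟨rfl, -⟩ := h <;> simp [back, hop, dec_inc, *]
  · rcases hop : op p with ⟨d, f⟩ | ⟨d, f⟩ | p' | _ <;>
    rcases x with _ | _ | _ | ⟨p₁, q₁, r₁⟩ | p₁ | _ | _ <;>
    simp only [dl, hop, reduceCtorEq] at h <;>
    (try split_ifs at h with h1) <;>
    (try simp only [Option.some.injEq, Prod.mk.injEq, reduceCtorEq] at h) <;>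
    obtain ⟨rfl, -⟩ := h <;> simp [back, hop, dec_inc, *]
  · rcases x with _ | _ | _ | ⟨p₁, q₁, r₁⟩ | p₁ | _ | _ <;>
    simp only [dl, Option.some.injEq, Prod.mk.injEq, reduceCtorEq] at h <;>
    obtain ⟨rfl, -⟩ := h <;> simp [back]
  · rcases x with _ | _ | _ | ⟨p₁, q₁, r₁⟩ | p₁ | _ | _
    case s =>
      rcases hop : op p₁ with ⟨d, f⟩ | ⟨d, f⟩ | p' | _ <;>
      simp only [dl, hop] at h <;>
      split_ifs at h with h1 <;>
      simp only [Option.some.injEq, Prod.mk.injEq] at h <;>
      obtain ⟨rfl, -⟩ := h <;> simp [back, h1]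
    all_goals
      simp only [dl, Option.some.injEq, Prod.mk.injEq, reduceCtorEq] at h <;>
      obtain ⟨rfl, -⟩ := h <;> simp [back]
  · rcases x with _ | _ | _ | ⟨p₁, q₁, r₁⟩ | p₁ | _ | _ <;>
    simp only [dl, Option.some.injEq, Prod.mk.injEq, reduceCtorEq] at h <;>
    obtain ⟨rfl, -⟩ := h <;> simp [back]
  · rcases x with _ | _ | _ | ⟨p₁, q₁, r₁⟩ | p₁ | _ | _ <;>
    simp only [dl, Option.some.injEq, Prod.mk.injEq, reduceCtorEq] at h <;>
    obtain ⟨rfl, -⟩ := h <;> simp [back]

theorem codet (hk : 0 < k) (op : Fin n → TOp (Fin n) k) (m₁ m₂ : Mode n k) (x : Sym n k)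
    (m' : Mode n k) (o₁ o₂ : List (Sym n k)) (h₁ : dl hk op m₁ x = some (m', o₁))
    (h₂ : dl hk op m₂ x = some (m', o₂)) : m₁ = m₂ :=
  (back_dl hk op m₁ x m' o₁ h₁).trans (back_dl hk op m₂ x m' o₂ h₂).symm

/-- one step of the queue machine -/
def QS (hk : 0 < k) (op : Fin n → TOp (Fin n) k)
    (x y : Mode n k × List (Sym n k)) : Prop :=
  ∃ s z m' out, x.2 = s :: z ∧ dl hk op x.1 s = some (m', out) ∧ y = (m', z ++ out)

theorem QS.det {hk : 0 < k} {op : Fin n → TOp (Fin n) k} {x y z : Mode n k × List (Sym n k)}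
    (h₁ : QS hk op x y) (h₂ : QS hk op x z) : y = z := by
  obtain ⟨s, w, m', out, h1, h2, rfl⟩ := h₁
  obtain ⟨s', w', m'', out', h1', h2', rfl⟩ := h₂
  rw [h1] at h1'
  obtain ⟨rfl, rfl⟩ := List.cons.inj h1'
  rw [h2] at h2'
  obtain ⟨rfl, rfl⟩ := Prod.mk.inj (Option.some.inj h2')
  rfl

theorem qs {hk : 0 < k} {op : Fin n → TOp (Fin n) k} {m m' : Mode n k} {s : Sym n k}
    {out : List (Sym n k)} (z : List (Sym n k)) (h : dl hk op m s = some (m', out)) :
    QS hk op (m, s :: z) (m', z ++ out) :=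
  ⟨s, z, m', out, rfl, h, rfl⟩

/-- a pass which multiplies -/
theorem mult {hk : 0 < k} {op : Fin n → TOp (Fin n) k} {m : Mode n k} {x y : Sym n k} {c : ℕ}
    (h : dl hk op m x = some (m, List.replicate c y)) (L : ℕ) (w : List (Sym n k)) :
    ReflTransGen (QS hk op) (m, List.replicate L x ++ w) (m, w ++ List.replicate (c * L) y) := by
  induction L generalizing w with
  | zero => simpa using ReflTransGen.refl
  | succ L ih =>
    refine ReflTransGen.head (qs (List.replicate L x ++ w) h) ?_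
    have := ih (w ++ List.replicate c y)
    have e : w ++ List.replicate c y ++ List.replicate (c * L) y
        = w ++ List.replicate (c * (L + 1)) y := by
      rw [List.append_assoc, ← List.replicate_add, Nat.mul_succ, Nat.add_comm]
    rw [e, ← List.append_assoc] at this
    exact this

/-- a pass which divides -/
theorem count {hk : 0 < k} {op : Fin n → TOp (Fin n) k} {m : Fin k → Mode n k} {x : Sym n k}
    (h : ∀ i, dl hk op (m i) x = some (m (inc hk i), cout k x i)) (L : ℕ) (i : Fin k)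
    (w : List (Sym n k)) :
    ReflTransGen (QS hk op) (m i, List.replicate L x ++ w)
      (m ⟨(i + L) % k, Nat.mod_lt _ hk⟩, w ++ List.replicate ((i + L) / k) x) := by
  induction L generalizing i w with
  | zero =>
    have h1 : ((i : ℕ) + 0) % k = i := by rw [add_zero]; exact Nat.mod_eq_of_lt i.2
    have h2 : ((i : ℕ) + 0) / k = 0 := by rw [add_zero]; exact Nat.div_eq_of_lt i.2
    have h3 : (⟨((i : ℕ) + 0) % k, Nat.mod_lt _ hk⟩ : Fin k) = i := Fin.ext h1
    rw [h3, h2]
    simpa using ReflTransGen.refl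
  | succ L ih =>
    refine ReflTransGen.head (qs (List.replicate L x ++ w) (h i)) ?_
    have h1 := ih (inc hk i) (w ++ cout k x i)
    by_cases h2 : (i : ℕ) + 1 < k
    · have h3 : inc hk i = ⟨i + 1, h2⟩ := by simp [inc, h2]
      have h4 : cout k x i = [] := by simp [cout, h2]
      have h5 : ((i : ℕ) + 1 + L) = i + (L + 1) := by ring
      rw [h3, h4] at h1 ⊢
      simp only [h5] at h1
      simpa using h1
    · have hi : (i : ℕ) + 1 = k := by have := i.2; omega
      have h3 : inc hk i = ⟨0, hk⟩ := by simp [inc, h2]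
      have h4 : cout k x i = [x] := by simp [cout, h2]
      have h5 : (i : ℕ) + (L + 1) = k + L := by omega
      have h6 : ((i : ℕ) + (L + 1)) % k = L % k := by rw [h5, Nat.add_mod_left]
      have h7 : ((i : ℕ) + (L + 1)) / k = L / k + 1 := by
        rw [h5, Nat.add_div_left _ hk]
      have h9 : ((⟨0, hk⟩ : Fin k) : ℕ) + L = L := by simp
      rw [h3, h4] at h1 ⊢
      simp only [h9] at h1
      have h8 : (⟨((i : ℕ) + (L + 1)) % k, Nat.mod_lt _ hk⟩ : Fin k) = ⟨L % k, Nat.mod_lt _ hk⟩ :=
        Fin.ext h6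
      rw [h8, h7]
      simpa [List.replicate_succ] using h1

/-- the queue of the configuration `(p, L, R)` after the mode `(q, r)` -/
def conf (p : Fin n) (L R : ℕ) (q : Fin n) (r : Fin k) : Mode n k × List (Sym n k) :=
  (.CB q r, .s p q r :: (List.replicate L .a ++ .rho :: List.replicate R .b))

theorem qs' {hk : 0 < k} {op : Fin n → TOp (Fin n) k} {m m' : Mode n k} (s : Sym n k)
    (z out : List (Sym n k)) {l l' : List (Sym n k)} (h : dl hk op m s = some (m', out))
    (h1 : l = s :: z) (h2 : l' = z ++ out) : QS hk op (m, l) (m', l') := by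
  subst h1 h2
  exact qs z h

theorem mult' {hk : 0 < k} {op : Fin n → TOp (Fin n) k} {m : Mode n k} (x y : Sym n k) (c : ℕ)
    (h : dl hk op m x = some (m, List.replicate c y)) (L : ℕ) (w : List (Sym n k))
    {l l' : List (Sym n k)} (h1 : l = List.replicate L x ++ w)
    (h2 : l' = w ++ List.replicate (c * L) y) :
    ReflTransGen (QS hk op) (m, l) (m, l') := by
  subst h1 h2
  exact mult h L w

theorem count' {hk : 0 < k} {op : Fin n → TOp (Fin n) k} {m : Fin k → Mode n k} (x : Sym n k)
    (h : ∀ i, dl hk op (m i) x = some (m (inc hk i), cout k x i)) (L : ℕ)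
    (w : List (Sym n k)) {l l' : List (Sym n k)} (h1 : l = List.replicate L x ++ w)
    (h2 : l' = w ++ List.replicate (L / k) x) :
    ReflTransGen (QS hk op) (m ⟨0, hk⟩, l) (m ⟨L % k, Nat.mod_lt _ hk⟩, l') := by
  subst h1 h2
  have := count h L ⟨0, hk⟩ w
  simp only [Nat.zero_add] at this
  exact this

/-- copy pass -/
theorem copy {hk : 0 < k} {op : Fin n → TOp (Fin n) k} (p p' : Fin n) (r : Fin k) (L R : ℕ)
    (l : List (Sym n k)) (hl : l = List.replicate L .a ++ .rho :: (List.replicate R .b ++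
      [.s p' p r])) :
    ReflTransGen (QS hk op) (.CA p r, l) (conf p' L R p r) := by
  refine (mult' .a .a 1 rfl L (.rho :: (List.replicate R .b ++ [.s p' p r])) hl rfl).trans ?_
  refine ReflTransGen.head (qs' (m' := .CB p r) .rho (List.replicate R .b ++ ([.s p' p r] ++
    List.replicate (1 * L) .a)) [.rho] rfl (by simp) rfl) ?_
  exact mult' .b .b 1 rfl R ([.s p' p r] ++ List.replicate (1 * L) .a ++ [.rho]) (by simp)
    (by simp)

/-- the configuration of the queue machine at the end of the two main passes -/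
theorem macro_right {hk : 0 < k} {op : Fin n → TOp (Fin n) k} {p : Fin n} {d : Fin k}
    {f : Fin k → Fin n} (hop : op p = .right d f) (L R : ℕ) (q : Fin n) (r : Fin k) :
    TransGen (QS hk op) (conf p L R q r)
      (conf (f ⟨R % k, Nat.mod_lt _ hk⟩) (k * L + d) (R / k) p ⟨R % k, Nat.mod_lt _ hk⟩) := by
  refine TransGen.head' (qs' (m' := .Am p ⟨0, hk⟩) (.s p q r) (List.replicate L .a ++
    (.rho :: (List.replicate R .b))) [.c p] (by simp [dl, hop]) rfl rfl) ?_
  refine (mult' (hk := hk) (op := op) .a .a k (by simp [dl, hop]) L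
    (.rho :: (List.replicate R .b ++ [.c p])) (by simp) rfl).trans ?_
  refine ReflTransGen.head (qs' (m' := .Bm p ⟨0, hk⟩) .rho (List.replicate R .b ++ ([.c p] ++
    List.replicate (k * L) .a)) (List.replicate d .a ++ [.rho]) (by simp [dl, hop])
    (by simp) rfl) ?_
  refine (count' (hk := hk) (op := op) (m := .Bm p) .b (fun i => by simp [dl, hop]) R
    (.c p :: (List.replicate (k * L) .a ++ (List.replicate d .a ++ [.rho]))) (by simp) rfl).trans ?_
  refine ReflTransGen.head (qs' (m' := .CA p ⟨R % k, Nat.mod_lt _ hk⟩) (.c p)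
    (List.replicate (k * L) .a ++ (List.replicate d .a ++ (.rho :: List.replicate (R / k) .b)))
    [.s (f ⟨R % k, Nat.mod_lt _ hk⟩) p ⟨R % k, Nat.mod_lt _ hk⟩] (by simp [dl, hop])
    (by simp) rfl) ?_
  exact copy p (f ⟨R % k, Nat.mod_lt _ hk⟩) ⟨R % k, Nat.mod_lt _ hk⟩ (k * L + d) (R / k) _
    (by simp only [List.replicate_add, List.append_assoc, List.cons_append, List.nil_append])

theorem macro_left {hk : 0 < k} {op : Fin n → TOp (Fin n) k} {p : Fin n} {d : Fin k}
    {f : Fin k → Fin n} (hop : op p = .left d f) (L R : ℕ) (q : Fin n) (r : Fin k) :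
    TransGen (QS hk op) (conf p L R q r)
      (conf (f ⟨L % k, Nat.mod_lt _ hk⟩) (L / k) (k * R + d) p ⟨L % k, Nat.mod_lt _ hk⟩) := by
  refine TransGen.head' (qs' (m' := .Am p ⟨0, hk⟩) (.s p q r) (List.replicate L .a ++
    (.rho :: (List.replicate R .b))) [.c p] (by simp [dl, hop]) rfl rfl) ?_
  refine (count' (hk := hk) (op := op) (m := .Am p) .a (fun i => by simp [dl, hop]) L
    (.rho :: (List.replicate R .b ++ [.c p])) (by simp) rfl).trans ?_
  refine ReflTransGen.head (qs' (m' := .Bm p ⟨L % k, Nat.mod_lt _ hk⟩) .rho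
    (List.replicate R .b ++ ([.c p] ++ List.replicate (L / k) .a))
    (.rho :: List.replicate d .b) (by simp [dl, hop]) (by simp) rfl) ?_
  refine (mult' (hk := hk) (op := op) .b .b k (by simp [dl, hop]) R
    (.c p :: (List.replicate (L / k) .a ++ (.rho :: List.replicate d .b))) (by simp) rfl).trans ?_
  refine ReflTransGen.head (qs' (m' := .CA p ⟨L % k, Nat.mod_lt _ hk⟩) (.c p)
    (List.replicate (L / k) .a ++ (.rho :: (List.replicate d .b ++ List.replicate (k * R) .b)))
    [.s (f ⟨L % k, Nat.mod_lt _ hk⟩) p ⟨L % k, Nat.mod_lt _ hk⟩] (by simp [dl, hop])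
    (by simp) rfl) ?_
  exact copy p (f ⟨L % k, Nat.mod_lt _ hk⟩) ⟨L % k, Nat.mod_lt _ hk⟩ (L / k) (k * R + d) _
    (by rw [Nat.add_comm (k * R)]; simp only [List.replicate_add, List.append_assoc,
      List.cons_append, List.nil_append])

theorem macro_jump {hk : 0 < k} {op : Fin n → TOp (Fin n) k} {p p' : Fin n}
    (hop : op p = .jump p') (L R : ℕ) (q : Fin n) (r : Fin k) :
    TransGen (QS hk op) (conf p L R q r) (conf p' L R p ⟨0, hk⟩) := by
  refine TransGen.head' (qs' (m' := .CA p ⟨0, hk⟩) (.s p q r) (List.replicate L .a ++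
    (.rho :: (List.replicate R .b))) [.s p' p ⟨0, hk⟩] (by simp [dl, hop]) rfl rfl) ?_
  exact copy p p' ⟨0, hk⟩ L R _ (by simp)

theorem macro_halt {hk : 0 < k} {op : Fin n → TOp (Fin n) k} {p : Fin n}
    (hop : op p = .halt) (L R : ℕ) (q : Fin n) (r : Fin k) :
    ReflTransGen (QS hk op) (conf p L R q r) (.XB, [.F1, .F2]) := by
  refine ReflTransGen.head (qs' (m' := .XA) (.s p q r) (List.replicate L .a ++
    (.rho :: (List.replicate R .b))) [.F1] (by simp [dl, hop]) rfl rfl) ?_
  refine (mult' (hk := hk) (op := op) .a .a 0 rfl L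
    (.rho :: (List.replicate R .b ++ [.F1])) (by simp) rfl).trans ?_
  refine ReflTransGen.head (qs' (m' := .XB) .rho (List.replicate R .b ++ [.F1]) [.F2] rfl
    (by simp) rfl) ?_
  exact mult' (hk := hk) (op := op) .b .b 0 rfl R [.F1, .F2] (by simp) (by simp)

end Pool.Agent.Helper81.MH
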